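import Mathlib

set_option autoImplicit false

namespace Pool.Agent.H.MP_d80832_gt

open Set Filter

abbrev V : Type := Finset (ℕ × ℕ)

def R (L : Set ℕ) (v w : V) : Prop := ∀ c j, (c, j) ∈ w → ((c, j) ∈ v ↔ c ∈ L)

def N : ℕ → Set V → Prop
  | 0, _ => True
  | m+1, C => ∃ v ∈ C, ∀ L, N m {w ∈ C | R L v w}

theorem N.mono : ∀ (m : ℕ) {C D : Set V}, C ⊆ D → N m C → N m D
  | 0, _, _, _, _ => trivial
  | m+1, _, _, h, ⟨v, hv, H⟩ => ⟨v, h hv, fun L => N.mono m (fun _ hw => ⟨h hw.1, hw.2⟩) (H L)⟩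

theorem N.le {a b : ℕ} {C : Set V} (h : a ≤ b) (H : N b C) : N a C := by
  induction b, h using Nat.le_induction with
  | base => exact H
  | succ b _ ih =>
    obtain ⟨v, -, H⟩ := H
    exact ih (N.mono b (fun _ hw => hw.1) (H univ))

theorem N.big : ∀ (s a b : ℕ) (C D : Set V), a + b = s → N s (C ∪ D) → N a C ∨ N b D := by
  intro s
  induction s with
  | zero =>
    intro a b C D h _
    left
    rw [show a = 0 by omega]
    trivial
  | succ s ih =>
    intro a b C D h H
    rcases a with _ | a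
    · exact Or.inl trivial
    rcases b with _ | b
    · exact Or.inr trivial
    obtain ⟨v, hv, H⟩ := H
    have H' : ∀ L, N s ({w ∈ C | R L v w} ∪ {w ∈ D | R L v w}) := fun L =>
      N.mono s (fun w hw => hw.1.elim (fun h => Or.inl ⟨h, hw.2⟩) fun h => Or.inr ⟨h, hw.2⟩) (H L)
    rcases hv with hv | hv
    · by_cases k : N (b+1) D
      · exact Or.inr k
      · exact Or.inl ⟨v, hv, fun L => (ih a (b+1) _ _ (by omega) (H' L)).resolve_right
          fun k' => k (N.mono _ (fun _ hw => hw.1) k')⟩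
    · by_cases k : N (a+1) C
      · exact Or.inl k
      · exact Or.inr ⟨v, hv, fun L => (ih (a+1) b _ _ (by omega) (H' L)).resolve_left
          fun k' => k (N.mono _ (fun _ hw => hw.1) k')⟩

theorem N.hom {α : Type} (S : Finset α) (P : α → V → Prop) (a : ℕ) : ∀ C : Set V,
    N (2 ^ (a + S.card)) C → ∃ D ⊆ C, N (2 ^ a) D ∧ ∀ s ∈ S, ∀ v ∈ D, ∀ w ∈ D, P s v → P s w := by
  classical
  induction S using Finset.induction_on with
  | empty => intro C h; exact ⟨C, subset_rfl, by simpa using h, by simp⟩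
  | insert s S hs ih =>
    intro C h
    rw [Finset.card_insert_of_notMem hs] at h
    have := N.big _ (2 ^ (a + S.card)) (2 ^ (a + S.card)) {v ∈ C | P s v} {v ∈ C | ¬ P s v}
      (by rw [← add_assoc, pow_succ]; omega) (N.mono _ (fun v hv => by
        by_cases k : P s v
        exacts [Or.inl ⟨hv, k⟩, Or.inr ⟨hv, k⟩]) h)
    rcases this with k | k <;> obtain ⟨D, d1, d2, d3⟩ := ih _ k <;>
      refine ⟨D, fun v hv => (d1 hv).1, d2, fun t ht v hv w hw hp => ?_⟩ <;>
      rcases Finset.mem_insert.1 ht with rfl | ht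
    · exact (d1 hw).2
    · exact d3 t ht v hv w hw hp
    · exact absurd hp (d1 hv).2
    · exact d3 t ht v hv w hw hp

theorem exC (l m : ℕ) : ∃ C : Set V, C.Finite ∧ N m C ∧ ∀ v ∈ C, ∀ c ≤ l, ∃ j, (c, j) ∈ v := by
  classical
  have H : ∀ (m : ℕ) (S : ℕ → Finset ℕ), (∀ c ≤ l, 2 ^ m ≤ (S c).card) →
      N m {w | (∀ c j, (c, j) ∈ w → c ≤ l ∧ j ∈ S c) ∧ ∀ c ≤ l, ∃ j, (c, j) ∈ w} := by
    intro m
    induction m with
    | zero => intro _ _; trivial
    | succ m ih =>
      intro S hS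
      have : ∀ c, ∃ T ⊆ S c, c ≤ l → T.card = 2 ^ m := fun c => by
        by_cases hc : c ≤ l
        · obtain ⟨T, h1, h2⟩ := Finset.exists_subset_card_eq (s := S c) (n := 2 ^ m)
            (le_trans (by rw [pow_succ]; omega) (hS c hc))
          exact ⟨T, h1, fun _ => h2⟩
        · exact ⟨∅, Finset.empty_subset _, fun h => absurd h hc⟩
      choose T T1 T2 using this
      let v : V := (Finset.range (l+1)).biUnion fun c => (T c).image fun j => (c, j)
      have hv : ∀ c j, (c, j) ∈ v ↔ c ≤ l ∧ j ∈ T c := by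
        intro c j
        simp only [v, Finset.mem_biUnion, Finset.mem_range, Finset.mem_image, Prod.mk.injEq]
        constructor
        · rintro ⟨a, ha, b, hb, rfl, rfl⟩
          exact ⟨by omega, hb⟩
        · rintro ⟨h1, h2⟩
          exact ⟨c, by omega, j, h2, rfl, rfl⟩
      refine ⟨v, ⟨fun c j h => ⟨((hv c j).1 h).1, T1 c ((hv c j).1 h).2⟩, fun c hc => ?_⟩,
        fun L => N.mono m ?_ (ih (fun c => if c ∈ L then T c else S c \ T c) fun c hc => ?_)⟩
      · obtain ⟨j, hj⟩ := Finset.card_pos.1 (show 0 < (T c).card by rw [T2 c hc]; positivity)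
        exact ⟨j, (hv c j).2 ⟨hc, hj⟩⟩
      · rintro w ⟨w1, w2⟩
        refine ⟨⟨fun c j h => ⟨(w1 c j h).1, ?_⟩, w2⟩, fun c j h => ?_⟩
        · have := (w1 c j h).2
          split_ifs at this
          · exact T1 c this
          · exact (Finset.mem_sdiff.1 this).1
        · have := w1 c j h
          rw [hv]
          split_ifs at this with k
          · exact ⟨fun _ => k, fun _ => this⟩
          · exact ⟨fun h => absurd h.2 (Finset.mem_sdiff.1 this.2).2, fun h => absurd h k⟩
      · split_ifs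
        · exact (T2 c hc).ge
        · rw [Finset.card_sdiff_of_subset (T1 c), T2 c hc]
          have := hS c hc
          rw [pow_succ] at this
          omega
  refine ⟨_, ?_, H m (fun _ => Finset.range (2 ^ m)) (by simp), fun v hv => hv.2⟩
  refine ((Finset.range (l+1) ×ˢ Finset.range (2 ^ m)).powerset.finite_toSet).subset ?_
  rintro w ⟨w1, -⟩
  rw [Finset.mem_coe, Finset.mem_powerset]
  rintro ⟨c, j⟩ h
  exact Finset.mem_product.2 ⟨Finset.mem_range.2 (Nat.lt_succ_of_le (w1 c j h).1), (w1 c j h).2⟩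

def tr (l : ℕ) (y : ℕ → V) : ℕ → V := fun i => if i < l then y i else ∅

structure Setup where
  C : ℕ → Set V
  St : ℕ → Finset (ℕ → V)
  M : ℕ → ℕ
  fin : ∀ l, (C l).Finite
  nor : ∀ l, N (2 ^ ((l+1) * (M l * M l + 2))) (C l)
  col : ∀ l, ∀ v ∈ C l, ∀ c ≤ l, ∃ j, (c, j) ∈ v
  mono : Monotone M
  card : ∀ l, (St l).card ≤ M l
  st : ∀ y : ℕ → V, (∀ l, y l ∈ C l) → ∀ l, tr l y ∈ St l

theorem exSetup : Nonempty Setup := by
  classical
  choose C C1 C2 C3 using exC
  let D : ℕ → ℕ → Set V := fun l M => C l (2 ^ ((l+1) * (M * M + 2)))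
  let nx : ℕ → Finset (ℕ → V) × ℕ → Finset (ℕ → V) := fun l x =>
    (x.1 ×ˢ (C1 l (2 ^ ((l+1) * (x.2 * x.2 + 2)))).toFinset).image fun z => Function.update z.1 l z.2
  let σ : ℕ → Finset (ℕ → V) × ℕ := fun n =>
    Nat.rec ({fun _ => ∅}, 1) (fun l x => (nx l x, x.2 + (nx l x).card)) n
  refine ⟨⟨fun l => D l (σ l).2, fun l => (σ l).1, fun l => (σ l).2, fun l => C1 _ _,
    fun l => C2 _ _, fun l => C3 _ _, monotone_nat_of_le_succ fun l => Nat.le_add_right _ _,
    fun l => ?_, fun y hy l => ?_⟩⟩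
  · cases l with
    | zero => exact le_rfl
    | succ l => exact Nat.le_add_left _ _
  · induction l with
    | zero => exact Finset.mem_singleton.2 rfl
    | succ l ih =>
      refine Finset.mem_image.2 ⟨(tr l y, y l), Finset.mem_product.2
        ⟨ih, (Set.Finite.mem_toFinset _).2 (hy l)⟩, ?_⟩
      funext i
      by_cases h : i = l
      · subst h; simp [tr]
      · rw [Function.update_of_ne h]
        simp only [tr]
        split_ifs <;> first | rfl | omega

end Pool.Agent.H.MP_d80832_gt
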