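import Mathlib
import Pool.Agent.H.MP_d80832_gt.A

set_option autoImplicit false

namespace Pool.Agent.H.MP_d80832_gt

open Set Filter

instance : TopologicalSpace V := ⊥
instance : DiscreteTopology V := ⟨rfl⟩
instance : MeasurableSpace V := borel V
instance : BorelSpace V := ⟨rfl⟩

namespace Setup

variable (S : Setup)

def K : Set (ℕ → V) := {y | ∀ l, y l ∈ S.C l}

def Nor (l m : ℕ) (C : Set V) : Prop := N (2 ^ (m * (S.M l * S.M l + 2))) C

def Cond (p : ℕ → Set V) : Prop := (∀ l, p l ⊆ S.C l) ∧ ∀ m, ∀ᶠ l in atTop, S.Nor l m (p l)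

def Dec (B : Set (ℕ → V)) (q : ℕ → Set V) (n : ℕ) : Prop :=
  ∀ y ∈ S.K, ∀ y' ∈ S.K, (∀ l < n, y l = y' l) → (∀ l ≥ n, y l ∈ q l) → (∀ l ≥ n, y' l ∈ q l) →
    y ∈ B → y' ∈ B

variable {S}

theorem Nor.le {l a b : ℕ} {C : Set V} (h : a ≤ b) (H : S.Nor l b C) : S.Nor l a C :=
  N.le (Nat.pow_le_pow_right two_pos (Nat.mul_le_mul_right _ h)) H

theorem ne_of {a : ℕ} {C : Set V} (h : N (2 ^ a) C) : C.Nonempty := by
  obtain ⟨v, hv, -⟩ := N.le (a := 1) Nat.one_le_two_pow h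
  exact ⟨v, hv⟩

theorem tr_eq {n : ℕ} {y y' : ℕ → V} : tr n y = tr n y' ↔ ∀ l < n, y l = y' l :=
  ⟨fun h l hl => by simpa [tr, hl] using congrFun h l,
    fun h => funext fun l => by simp only [tr]; split_ifs with k; exacts [h l k, rfl]⟩

theorem homog (G : (ℕ → V) → Prop) (k : ℕ) (hG : ∀ y y', (∀ l < k, y l = y' l) → G y → G y')
    (p : ℕ → Set V) (a : ℕ → ℕ) : ∀ d j, j + d = k → (∀ l ≥ j, N (2 ^ (a l + S.M l)) (p l)) →
    ∃ q : ℕ → Set V, (∀ l ≥ j, q l ⊆ p l ∧ N (2 ^ a l) (q l)) ∧ ∀ y ∈ S.K, ∀ y' ∈ S.K,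
      (∀ l < j, y l = y' l) → (∀ l, j ≤ l → l < k → y l ∈ q l) →
      (∀ l, j ≤ l → l < k → y' l ∈ q l) → G y → G y' := by
  intro d
  induction d with
  | zero =>
    intro j hj hp
    exact ⟨p, fun l hl => ⟨subset_rfl, N.le (Nat.pow_le_pow_right two_pos (by omega)) (hp l hl)⟩,
      fun y _ y' _ h _ _ => hG y y' fun l hl => h l (by omega)⟩
  | succ d ih =>
    intro j hj hp
    obtain ⟨q, q1, q2⟩ := ih (j+1) (by omega) fun l hl => hp l (by omega)
    obtain ⟨D, d1, d2, d3⟩ := N.hom (S.St j) (fun s v => ∃ y ∈ S.K, tr j y = s ∧ y j = v ∧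
      (∀ l, j + 1 ≤ l → l < k → y l ∈ q l) ∧ G y) (a j) (p j)
      (N.le (Nat.pow_le_pow_right two_pos (by have := S.card j; omega)) (hp j le_rfl))
    refine ⟨Function.update q j D, fun l hl => ?_, fun y hy y' hy' h1 h2 h3 h4 => ?_⟩
    · rcases hl.eq_or_lt with rfl | h
      · simpa using ⟨d1, d2⟩
      · rw [Function.update_of_ne h.ne']; exact q1 l h
    · have e : ∀ z : ℕ → V, (∀ l, j ≤ l → l < k → z l ∈ Function.update q j D l) →
          z j ∈ D ∧ ∀ l, j + 1 ≤ l → l < k → z l ∈ q l := fun z hz =>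
        ⟨by simpa using hz j le_rfl (by omega), fun l a1 a2 => by
          have := hz l (by omega) a2
          rwa [Function.update_of_ne (by omega)] at this⟩
      obtain ⟨z, z1, z2, z3, z4, z5⟩ := d3 _ (S.st y hy j) _ (e y h2).1 _ (e y' h3).1
        ⟨y, hy, rfl, rfl, (e y h2).2, h4⟩
      refine q2 z z1 y' hy' (fun l hl => ?_) z4 (e y' h3).2 z5
      rcases (Nat.lt_succ_iff.1 hl).eq_or_lt with rfl | h
      · exact z3
      · rw [tr_eq.1 z2 l h, h1 l h]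

theorem one {O : Set (ℕ → V)} (hO : ∀ y ∈ O, ∃ k, ∀ z, (∀ l < k, z l = y l) → z ∈ O)
    (p : ℕ → Set V) (n : ℕ) (a : ℕ → ℕ) (hp : ∀ l ≥ n, p l ⊆ S.C l ∧ N (2 ^ (a l + S.M l)) (p l))
    (s : ℕ → V) : ∃ q : ℕ → Set V, (∀ l ≥ n, q l ⊆ p l ∧ N (2 ^ a l) (q l)) ∧
      ∀ y ∈ S.K, ∀ y' ∈ S.K, tr n y = s → tr n y' = s → (∀ l ≥ n, y l ∈ q l) →
        (∀ l ≥ n, y' l ∈ q l) → y ∈ O → y' ∈ O := by
  classical
  let G : ℕ → (ℕ → V) → Prop := fun k y => ∀ z, (∀ l < k, z l = y l) → z ∈ O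
  choose q q1 q2 using fun k => homog (S := S) (G (n + k)) (n + k)
    (fun y y' h g z hz => g z fun l hl => (hz l hl).trans (h l hl).symm) p a k n rfl
    fun l hl => (hp l hl).2
  by_cases hA : ∃ k, ∃ y ∈ S.K, tr n y = s ∧ (∀ l, n ≤ l → l < n + k → y l ∈ q k l) ∧ G (n + k) y
  · obtain ⟨k, z, z1, z2, z3, z4⟩ := hA
    exact ⟨q k, q1 k, fun y _ y' hy' _ e _ h _ => q2 k z z1 y' hy' (tr_eq.1 (z2.trans e.symm)) z3
      (fun l a1 _ => h l a1) z4 y' fun _ _ => rfl⟩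
  have lim : ∀ l, ∃ D, n ≤ l → ∀ᶠ k in (hyperfilter ℕ : Filter ℕ), q k l = D := by
    intro l
    by_cases hl : n ≤ l
    · obtain ⟨D, -, hD⟩ := ((hyperfilter ℕ).map fun k => q k l).eq_pure_of_finite_mem
        (S.fin l).finite_subsets (Ultrafilter.mem_map.2 (by
          refine Eventually.of_forall fun k => ?_
          exact ((q1 k l hl).1.trans (hp l hl).1 :)))
      refine ⟨D, fun _ => ?_⟩
      have : {D} ∈ (hyperfilter ℕ).map fun k => q k l := by rw [hD]; simp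
      exact Ultrafilter.mem_map.1 this
    · exact ⟨∅, fun h => absurd h hl⟩
  choose Q hQ using lim
  refine ⟨Q, fun l hl => ?_, fun y hy y' _ e _ h _ hyO => absurd ?_ hA⟩
  · obtain ⟨k, hk⟩ := (hQ l hl).exists
    exact hk ▸ q1 k l hl
  · obtain ⟨k0, hk0⟩ := hO y hyO
    have h1 : ∀ᶠ k in (hyperfilter ℕ : Filter ℕ), ∀ l ∈ Ico n k0, q k l = Q l :=
      (eventually_all_finite (finite_Ico n k0)).2 fun l hl => hQ l hl.1
    have h2 : ∀ᶠ k in (hyperfilter ℕ : Filter ℕ), k0 ≤ k :=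
      (Nat.hyperfilter_le_atTop (eventually_ge_atTop k0) :)
    obtain ⟨k, a1, a2⟩ := (h1.and h2).exists
    have : ∀ l, ∃ v, n ≤ l → v ∈ q k l := fun l => by
      by_cases hl : n ≤ l
      · exact (ne_of (q1 k l hl).2).imp fun v hv _ => hv
      · exact ⟨∅, fun h => absurd h hl⟩
    choose w hw using this
    refine ⟨k, fun l => if l < n ∨ l < k0 then y l else w l, fun l => ?_, ?_, fun l b1 b2 => ?_,
      fun z hz => hk0 z fun l hl => ?_⟩
    · dsimp only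
      split_ifs with b
      · exact hy l
      · exact (hp l (by omega)).1 ((q1 k l (by omega)).1 (hw l (by omega)))
    · rw [← e, tr_eq]
      intro l hl
      exact if_pos (Or.inl hl)
    · dsimp only
      split_ifs with b
      · rw [a1 l ⟨b1, by omega⟩]; exact h l b1
      · exact hw l b1
    · rw [hz l (by omega)]; exact if_pos (Or.inr hl)

theorem many {O : Set (ℕ → V)} (hO : ∀ y ∈ O, ∃ k, ∀ z, (∀ l < k, z l = y l) → z ∈ O)
    (n : ℕ) (a : ℕ → ℕ) (A : Finset (ℕ → V)) : ∀ p : ℕ → Set V,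
    (∀ l ≥ n, p l ⊆ S.C l ∧ N (2 ^ (a l + S.M l * A.card)) (p l)) →
    ∃ q : ℕ → Set V, (∀ l ≥ n, q l ⊆ p l ∧ N (2 ^ a l) (q l)) ∧ ∀ s ∈ A,
      ∀ y ∈ S.K, ∀ y' ∈ S.K, tr n y = s → tr n y' = s → (∀ l ≥ n, y l ∈ q l) →
        (∀ l ≥ n, y' l ∈ q l) → y ∈ O → y' ∈ O := by
  classical
  induction A using Finset.induction_on with
  | empty => intro p hp; exact ⟨p, fun l hl => ⟨subset_rfl, by simpa using (hp l hl).2⟩, by simp⟩
  | insert s A hs ih =>
    intro p hp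
    rw [Finset.card_insert_of_notMem hs] at hp
    obtain ⟨q, q1, q2⟩ := one (S := S) hO p n (fun l => a l + S.M l * A.card)
      (fun l hl => ⟨(hp l hl).1, by have := (hp l hl).2; rwa [mul_add, mul_one, ← add_assoc] at this⟩) s
    obtain ⟨r, r1, r2⟩ := ih q fun l hl => ⟨(q1 l hl).1.trans (hp l hl).1, (q1 l hl).2⟩
    refine ⟨r, fun l hl => ⟨(r1 l hl).1.trans (q1 l hl).1, (r1 l hl).2⟩, fun t ht => ?_⟩
    rcases Finset.mem_insert.1 ht with rfl | ht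
    · exact fun y hy y' hy' e e' h h' => q2 y hy y' hy' e e' (fun l hl => (r1 l hl).1 (h l hl))
        fun l hl => (r1 l hl).1 (h' l hl)
    · exact r2 t ht

variable (S) in
def PP (B : Set (ℕ → V)) : Prop := ∀ p n m, S.Cond p → (∀ l ≥ n, S.Nor l (m+1) (p l)) →
  ∃ q, S.Cond q ∧ (∀ l, q l ⊆ p l) ∧ (∀ l < n, q l = p l) ∧ (∀ l ≥ n, S.Nor l m (q l)) ∧
    S.Dec B q n

theorem pp_op {O : Set (ℕ → V)} (hO : ∀ y ∈ O, ∃ k, ∀ z, (∀ l < k, z l = y l) → z ∈ O) :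
    S.PP O := by
  classical
  intro p n m hp hn
  let ν : ℕ → ℕ := fun l => Nat.findGreatest (fun a => S.Nor l (a+1) (p l)) (l + m)
  have h1 : ∀ l ≥ n, S.Nor l (ν l + 1) (p l) := fun l hl =>
    Nat.findGreatest_spec (P := fun a => S.Nor l (a+1) (p l)) (Nat.le_add_left m l) (hn l hl)
  obtain ⟨q, q1, q2⟩ := many (S := S) hO n (fun l => ν l * (S.M l * S.M l + 2)) (S.St n) p
    fun l hl => ⟨hp.1 l, N.le (Nat.pow_le_pow_right two_pos (by
      have := Nat.mul_le_mul_left (S.M l) ((S.card n).trans (S.mono hl))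
      rw [add_mul]; omega)) (h1 l hl)⟩
  have h2 : ∀ l, (if l < n then p l else q l) ⊆ p l := fun l => by
    split_ifs with h
    exacts [subset_rfl, (q1 l (by omega)).1]
  refine ⟨fun l => if l < n then p l else q l, ⟨fun l => (h2 l).trans (hp.1 l), fun a => ?_⟩, h2,
    fun l hl => if_pos hl, fun l hl => ?_, fun y hy y' hy' e h h' => ?_⟩
  · filter_upwards [hp.2 (a+1), eventually_ge_atTop n, eventually_ge_atTop a] with l b1 b2 b3
    rw [if_neg (by omega)]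
    exact Nor.le (b := ν l) (Nat.le_findGreatest (by omega) b1) (q1 l b2).2
  · dsimp only
    rw [if_neg (by omega)]
    exact Nor.le (b := ν l) (Nat.le_findGreatest (by omega) (hn l hl)) (q1 l hl).2
  · exact q2 _ (S.st y hy n) y hy y' hy' rfl (tr_eq.2 e).symm
      (fun l hl => by simpa [not_lt.2 hl] using h l hl) fun l hl => by simpa [not_lt.2 hl] using h' l hl

theorem Dec.mono {B : Set (ℕ → V)} {q q' : ℕ → Set V} {n : ℕ} (h : S.Dec B q n)
    (k : ∀ l, q' l ⊆ q l) : S.Dec B q' n :=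
  fun y hy y' hy' e a b => h y hy y' hy' e (fun l hl => k l (a l hl)) fun l hl => k l (b l hl)

theorem fusion {A : ℕ → Set (ℕ → V)} (hA : ∀ i, S.PP (A i)) {p : ℕ → Set V} {n m : ℕ}
    (hp : S.Cond p) (hn : ∀ l ≥ n, S.Nor l m (p l)) : ∃ q, S.Cond q ∧ (∀ l, q l ⊆ p l) ∧
      (∀ l < n, q l = p l) ∧ (∀ l ≥ n, S.Nor l m (q l)) ∧
      ∀ i, ∃ k, i ≤ k ∧ n ≤ k ∧ S.Dec (A i) q k := by
  have st : ∀ (i : ℕ) (q : {q // S.Cond q}), ∃ r : {q // S.Cond q}, ∃ k, i ≤ k ∧ n ≤ k ∧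
      (∀ l, r.1 l ⊆ q.1 l) ∧ (∀ l < k, r.1 l = q.1 l) ∧ (∀ l ≥ k, S.Nor l (m + i) (r.1 l)) ∧
      S.Dec (A i) r.1 k := by
    intro i q
    obtain ⟨k, hk⟩ := eventually_atTop.1 (q.2.2 (m + i + 1))
    obtain ⟨r, r1, r2⟩ := hA i q.1 (k + i + n) (m + i) q.2 fun l hl => hk l (by omega)
    exact ⟨⟨r, r1⟩, k + i + n, by omega, by omega, r2⟩
  choose r k k1 k2 r1 r2 r3 r4 using st
  let q : ℕ → {q // S.Cond q} := fun i => Nat.rec ⟨p, hp⟩ (fun i x => r i x) i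
  have hq : ∀ i, q (i+1) = r i (q i) := fun i => rfl
  have an : ∀ l, Antitone fun i => (q i).1 l := fun l =>
    antitone_nat_of_succ_le fun i => r1 i (q i) l
  have st : ∀ l i, l < i → (q i).1 l = (q (l+1)).1 l := by
    intro l i hi
    induction i, hi using Nat.le_induction with
    | base => rfl
    | succ i hi ih => rw [hq, r2 i (q i) l (lt_of_lt_of_le hi (k1 i _)), ih]
  have sub : ∀ i l, (q (l+1)).1 l ⊆ (q i).1 l := fun i l => by
    rw [← st l (i + l + 1) (by omega)]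
    exact an l (show i ≤ i + l + 1 by omega)
  have nr : ∀ a l i j, a ≤ m + i → i ≤ j → S.Nor l a ((q i).1 l) → S.Nor l a ((q j).1 l) := by
    intro a l i j ha hj h
    induction j, hj using Nat.le_induction with
    | base => exact h
    | succ j hj ih =>
      by_cases b : l < k j (q j)
      · rw [hq, r2 j _ l b]; exact ih
      · exact Nor.le (by omega) (r3 j (q j) l (not_lt.1 b))
  refine ⟨fun l => (q (l+1)).1 l, ⟨fun l => (q (l+1)).2.1 l, fun a => ?_⟩, sub 0, fun l hl => ?_,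
    fun l hl => nr m l 0 (l+1) le_rfl (Nat.zero_le _) (hn l hl),
    fun i => ⟨k i (q i), k1 _ _, k2 _ _, (r4 i (q i)).mono (sub (i+1))⟩⟩
  · filter_upwards [(q a).2.2 a, eventually_ge_atTop a] with l b1 b2
    exact nr a l a (l+1) (by omega) (by omega) b1
  · have : ∀ i, (q i).1 l = p l := fun i => by
      induction i with
      | zero => rfl
      | succ i ih => rw [hq, r2 i _ l (lt_of_lt_of_le hl (k2 _ _)), ih]
    exact this (l+1)

theorem pp_union {A : ℕ → Set (ℕ → V)} (hA : ∀ i, S.PP (A i)) : S.PP (⋃ i, A i) := by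
  intro p n m hp hn
  obtain ⟨q, q1, q2, q3, q4, q5⟩ := fusion hA hp hn
  choose k _ k2 k3 using q5
  obtain ⟨r, r1, r2, r3, r4, r5⟩ := pp_op (S := S) (O := {y | ∃ i, ∃ z ∈ S.K, z ∈ A i ∧
      (∀ l ≥ k i, z l ∈ q l) ∧ ∀ l < k i, z l = y l})
    (fun y ⟨i, z, z1, z2, z3, z4⟩ => ⟨k i, fun w hw => ⟨i, z, z1, z2, z3,
      fun l hl => (z4 l hl).trans (hw l hl).symm⟩⟩) q n m q1 q4
  refine ⟨r, r1, fun l => (r2 l).trans (q2 l), fun l hl => (r3 l hl).trans (q3 l hl), r4,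
    fun y hy y' hy' e h h' hB => ?_⟩
  obtain ⟨i, hi⟩ := mem_iUnion.1 hB
  obtain ⟨j, z, z1, z2, z3, z4⟩ := r5 y hy y' hy' e h h'
    ⟨i, y, hy, hi, fun l hl => r2 l (h l ((k2 i).trans hl)), fun _ _ => rfl⟩
  exact mem_iUnion.2 ⟨j, k3 j z z1 y' hy' z4 z3 (fun l hl => r2 l (h' l ((k2 j).trans hl))) z2⟩

theorem pp {B : Set (ℕ → V)} (hB : MeasurableSet B) : S.PP B := by
  induction B, hB using MeasurableSet.induction_on_open with
  | isOpen U hU =>
    refine pp_op fun y hy => ?_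
    obtain ⟨I, u, h1, h2⟩ := isOpen_pi_iff.1 hU y hy
    obtain ⟨k, hk⟩ := I.exists_nat_subset_range
    exact ⟨k, fun z hz => h2 fun i hi => by
      rw [hz i (Finset.mem_range.1 (hk hi))]; exact (h1 i hi).2⟩
  | compl t _ ih =>
    intro p n m hp hn
    obtain ⟨q, q1, q2, q3, q4, q5⟩ := ih p n m hp hn
    exact ⟨q, q1, q2, q3, q4, fun y hy y' hy' e h h' a b =>
      a (q5 y' hy' y hy (fun l hl => (e l hl).symm) h' h b)⟩
  | iUnion f _ _ ih => exact pp_union ih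

end Setup

end Pool.Agent.H.MP_d80832_gt
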