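import Mathlib
import Pool.Agent.H.MP_d80832_gt.B
import Pool.Agent.H.MP_dfc365_gt.A

set_option autoImplicit false

namespace Pool.Agent.H.MP_d80832_gt

open Set Filter Topology TopologicalSpace

theorem chain0 {α : Type} [TopologicalSpace α] [PolishSpace α] {W : Set α} (hW : IsClosed W)
    {B : ℕ → Set α} (hB : ∀ k, IsClopen (B k))
    (h : ∀ x ∈ W, ∀ y ∈ W, {k | x ∈ B k ∧ y ∉ B k}.Finite ∨ {k | y ∈ B k ∧ x ∉ B k}.Finite) :
    ∃ D ⊆ W, D.Countable ∧ ∀ x ∈ W, ∃ y ∈ D, {k | y ∈ B k ∧ x ∉ B k}.Finite := by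
  let sm : Set α → Prop := fun U =>
    ∃ D ⊆ W, D.Countable ∧ ∀ x ∈ W, x ∈ U → ∃ y ∈ D, {k | y ∈ B k ∧ x ∉ B k}.Finite
  obtain ⟨T, t1, t2, t3⟩ := isOpen_sUnion_countable {U | IsOpen U ∧ sm U} fun _ h => h.1
  have hG : sm (⋃₀ {U | IsOpen U ∧ sm U}) := by
    choose! D d1 d2 d3 using fun U (hU : U ∈ T) => (t2 hU).2
    refine ⟨⋃ U ∈ T, D U, iUnion₂_subset d1, t1.biUnion d2, fun x hx hU => ?_⟩
    rw [← t3] at hU
    obtain ⟨U, u1, u2⟩ := hU
    obtain ⟨y, y1, y2⟩ := d3 U u1 x hx u2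
    exact ⟨y, mem_biUnion u1 y1, y2⟩
  obtain ⟨D, d1, d2, d3⟩ := hG
  by_contra hc
  let F : Set α := W \ ⋃₀ {U | IsOpen U ∧ sm U}
  have hF : IsClosed F := hW.sdiff (isOpen_sUnion fun _ h => h.1)
  haveI : Nonempty F := by
    by_contra k
    exact hc ⟨D, d1, d2, fun x hx => d3 x hx (by_contra fun l => k ⟨⟨x, hx, l⟩⟩)⟩
  haveI := hF.polishSpace
  letI := upgradeIsCompletelyMetrizable (F × F)
  have key : ∀ (x0 y0 : F) (m : ℕ), {x : F | ∀ k ≥ m, y0.1 ∈ B k → x.1 ∈ B k} ∈ 𝓝 x0 → False := by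
    intro x0 y0 m hm
    obtain ⟨U, u1, u2⟩ := (mem_nhds_subtype _ _ _).1 hm
    obtain ⟨O, o1, o2, o3⟩ := mem_nhds_iff.1 u1
    refine x0.2.2 ⟨O, ⟨o2, insert y0.1 D, insert_subset y0.2.1 d1, d2.insert _,
      fun x hx hO => ?_⟩, o3⟩
    by_cases k : x ∈ ⋃₀ {U | IsOpen U ∧ sm U}
    · obtain ⟨y, y1, y2⟩ := d3 x hx k
      exact ⟨y, Or.inr y1, y2⟩
    · refine ⟨y0, Or.inl rfl, (finite_Iio m).subset fun i hi => (not_le.1 fun l => hi.2 ?_ : i < m)⟩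
      exact u2 (show (⟨x, hx, k⟩ : F) ∈ Subtype.val ⁻¹' U from o1 hO) i l hi.1
  have cl : ∀ (m : ℕ) (a b : F × F → α), Continuous a → Continuous b →
      IsClosed {z | ∀ k ≥ m, a z ∈ B k → b z ∈ B k} := by
    intro m a b ha hb
    simp only [setOf_forall]
    refine isClosed_iInter fun k => isClosed_iInter fun _ => ?_
    have : {z | a z ∈ B k → b z ∈ B k} = (a ⁻¹' B k)ᶜ ∪ b ⁻¹' B k := by
      ext z; simp [imp_iff_not_or]
    rw [this]
    exact ((hB k).2.preimage ha).isClosed_compl.union ((hB k).1.preimage hb)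
  obtain ⟨⟨m, b⟩, z, hz⟩ := nonempty_interior_of_iUnion_of_closed (X := F × F)
    (f := fun i : ℕ × Bool => if i.2 then {z | ∀ k ≥ i.1, z.2.1 ∈ B k → z.1.1 ∈ B k}
      else {z | ∀ k ≥ i.1, z.1.1 ∈ B k → z.2.1 ∈ B k})
    (fun i => by
      split_ifs
      · exact cl _ _ _ (by fun_prop) (by fun_prop)
      · exact cl _ _ _ (by fun_prop) (by fun_prop))
    (eq_univ_of_forall fun z => by
      rcases h _ z.1.2.1 _ z.2.2.1 with k | k <;> obtain ⟨m, hm⟩ := k.bddAbove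
      · exact mem_iUnion.2 ⟨(m+1, false), fun i hi a => by_contra fun b =>
          absurd (hm ⟨a, b⟩) (not_le.2 hi)⟩
      · exact mem_iUnion.2 ⟨(m+1, true), fun i hi a => by_contra fun b =>
          absurd (hm ⟨a, b⟩) (not_le.2 hi)⟩)
  rw [mem_interior_iff_mem_nhds] at hz
  cases b
  · exact key z.2 z.1 m ((Continuous.prodMk_right z.1).continuousAt.preimage_mem_nhds hz)
  · exact key z.1 z.2 m ((Continuous.prodMk_left z.2).continuousAt.preimage_mem_nhds hz)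

theorem chain {α : Type} [t : TopologicalSpace α] [PolishSpace α] [MeasurableSpace α]
    [BorelSpace α] {W : Set α} (hW : MeasurableSet W) {B : ℕ → Set α}
    (hB : ∀ k, MeasurableSet (B k)) (h0 : ∀ x ∈ W, {k | x ∈ B k}.Infinite)
    (h : ∀ x ∈ W, ∀ y ∈ W, {k | x ∈ B k ∧ y ∉ B k}.Finite ∨ {k | y ∈ B k ∧ x ∉ B k}.Finite) :
    ∃ b : ℕ → ℕ, ∀ x ∈ W, ∀ᶠ n in atTop, x ∈ B (b n) := by
  choose m m1 m2 m3 m4 using fun i : Option ℕ =>
    (show MeasurableSet (i.elim W B) by cases i; exacts [hW, hB _]).isClopenable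
  obtain ⟨t', a1, -, a3⟩ := PolishSpace.exists_polishSpace_forall_le m m1 m2
  obtain ⟨D, d1, d2, d3⟩ := @chain0 α t' a3 W ((m3 none).mono (a1 none)) B
    (fun k => ⟨(m3 (some k)).mono (a1 _), (m4 (some k)).mono (a1 _)⟩) h
  obtain ⟨b, b1, -, b2⟩ := MP_dfc365_gt.A.pseudo (d2.image fun x => {k | x ∈ B k})
    (by rintro _ ⟨x, hx, rfl⟩; exact h0 x (d1 hx))
    (by rintro _ ⟨x, hx, rfl⟩ _ ⟨y, hy, rfl⟩; exact h x (d1 hx) y (d1 hy)) id
  refine ⟨b, fun x hx => ?_⟩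
  obtain ⟨y, y1, y2⟩ := d3 x hx
  obtain ⟨n, hn⟩ := y2.bddAbove
  filter_upwards [b2 _ ⟨y, y1, rfl⟩, eventually_gt_atTop n] with i c1 c2
  exact by_contra fun c3 => absurd (hn ⟨c1, c3⟩) (not_le.2 (c2.trans_le (b1.id_le i)))

instance : SecondCountableTopology V := DiscreteTopology.secondCountableTopology_of_countable
instance : IsCompletelyMetrizableSpace V := IsCompletelyMetrizableSpace.discrete
instance : PolishSpace (ℕ → V) := {}

namespace Setup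

variable {S : Setup}

theorem bound {A : ℕ → ℕ → Set (ℕ → V)} (hA : ∀ n m, MeasurableSet (A n m))
    (hm : ∀ n, Monotone (A n)) {p : ℕ → Set V} (hp : S.Cond p)
    (h : ∀ n, ∀ y ∈ S.K, (∀ᶠ l in atTop, y l ∈ p l) → ∃ m, y ∈ A n m) :
    ∃ q, S.Cond q ∧ (∀ l, q l ⊆ p l) ∧ ∃ g : ℕ → ℕ, ∀ y ∈ S.K, (∀ᶠ l in atTop, y l ∈ q l) →
      ∀ᶠ n in atTop, y ∈ A n (g n) := by
  obtain ⟨n0, hn0⟩ := eventually_atTop.1 (hp.2 0)
  obtain ⟨q, q1, q2, -, -, q3⟩ := fusion (A := fun i => A i.unpair.1 i.unpair.2)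
    (fun i => pp (hA _ _)) hp hn0
  choose k k1 _ k3 using q3
  have : ∀ n, ∃ g, ∀ y ∈ S.K, (∀ l ≥ n, y l ∈ q l) → y ∈ A n g := by
    intro n
    let Kn : Set (ℕ → V) := {y ∈ S.K | ∀ l ≥ n, y l ∈ q l}
    have hc : IsCompact Kn := by
      refine (isCompact_univ_pi fun l => (S.fin l).isCompact).of_isClosed_subset ?_
        fun y hy l _ => hy.1 l
      simp only [Kn, K, mem_setOf_eq, setOf_and, setOf_forall]
      exact (isClosed_iInter fun l => (isClosed_discrete _).preimage (continuous_apply l)).inter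
        (isClosed_iInter fun l => isClosed_iInter fun _ =>
          (isClosed_discrete _).preimage (continuous_apply l))
    obtain ⟨t, ht⟩ := hc.elim_finite_subcover
      (fun m => {y | ∃ z ∈ Kn, z ∈ A n m ∧ ∀ l < k (n.pair m), z l = y l})
      (fun m => isOpen_pi_iff.2 fun y ⟨z, z1, z2, z3⟩ => ⟨Finset.range (k (n.pair m)),
        fun l => {y l}, fun _ _ => ⟨isOpen_discrete _, rfl⟩, fun w hw => ⟨z, z1, z2, fun l hl =>
          (z3 l hl).trans (hw l (by simpa using hl)).symm⟩⟩)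
      (fun y hy => by
        obtain ⟨m, hm⟩ := h n y hy.1 (eventually_atTop.2 ⟨n, fun l hl => q2 l (hy.2 l hl)⟩)
        exact mem_iUnion.2 ⟨m, y, hy, hm, fun _ _ => rfl⟩)
    refine ⟨t.sup id, fun y hy hq => ?_⟩
    obtain ⟨m, m1, z, z1, z2, z3⟩ := mem_iUnion₂.1 (ht ⟨hy, hq⟩)
    have e := (Nat.left_le_pair n m).trans (k1 (n.pair m))
    have := k3 (n.pair m) z z1.1 y hy z3 (fun l hl => z1.2 l (e.trans hl))
      (fun l hl => hq l (e.trans hl)) (by simpa using z2)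
    exact hm n (Finset.le_sup (f := id) m1) (by simpa using this)
  choose g hg using this
  refine ⟨q, q1, q2, g, fun y hy hq => ?_⟩
  obtain ⟨n, hn⟩ := eventually_atTop.1 hq
  exact eventually_atTop.2 ⟨n, fun i hi => hg i y hy fun l hl => hn l (hi.trans hl)⟩

theorem top : S.Cond S.C :=
  ⟨fun _ => subset_rfl, fun m => (eventually_ge_atTop m).mono fun l hl =>
    Nor.le (b := l + 1) (by omega) (S.nor l)⟩

theorem lower {P : Set (ℕ → Set V)} (h1 : P.Countable) (h2 : ∀ p ∈ P, S.Cond p)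
    (h3 : ∀ p ∈ P, ∀ q ∈ P, (∀ᶠ l in atTop, p l ⊆ q l) ∨ ∀ᶠ l in atTop, q l ⊆ p l) :
    ∃ q, S.Cond q ∧ ∀ p ∈ P, ∀ᶠ l in atTop, q l ⊆ p l := by
  classical
  obtain ⟨f, hf⟩ := (h1.insert S.C).exists_eq_range (insert_nonempty _ _)
  have c : ∀ p ∈ insert S.C P, S.Cond p := fun p hp => hp.elim (fun h => h ▸ top) (h2 p)
  have k : ∀ n, ∃ r ∈ insert S.C P, ∀ i < n, ∀ᶠ l in atTop, r l ⊆ f i l := fun n => by
    induction n with
    | zero => exact ⟨_, mem_insert _ _, by simp⟩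
    | succ n ih =>
      obtain ⟨r, a1, a2⟩ := ih
      have hn : f n ∈ insert S.C P := hf.ge ⟨n, rfl⟩
      have : (∀ᶠ l in atTop, r l ⊆ f n l) ∨ ∀ᶠ l in atTop, f n l ⊆ r l := by
        rcases a1 with e | b1
        · exact Or.inr (Eventually.of_forall (e ▸ (c _ hn).1))
        rcases hn with e | b2
        · exact Or.inl (Eventually.of_forall (e ▸ (h2 _ b1).1))
        · exact h3 _ b1 _ b2
      rcases this with l | l
      · exact ⟨r, a1, fun i hi => (Nat.lt_succ_iff.1 hi).eq_or_lt.elim (· ▸ l) (a2 i)⟩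
      · exact ⟨f n, hn, fun i hi => (Nat.lt_succ_iff.1 hi).eq_or_lt.elim
          (by rintro rfl; simp) fun m => (l.and (a2 i m)).mono fun _ b => b.1.trans b.2⟩
  choose r r1 r2 using k
  have : ∀ k, ∃ n, ∀ l ≥ n, S.Nor l k (r k l) ∧ ∀ i ∈ Iio k, r k l ⊆ f i l := fun k =>
    eventually_atTop.1 (((c _ (r1 k)).2 k).and ((eventually_all_finite (finite_Iio k)).2 (r2 k)))
  choose n hn using this
  let κ : ℕ → ℕ := fun l => Nat.findGreatest (fun k => n k ≤ l) l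
  have hκ : ∀ k, ∀ᶠ l in atTop, k ≤ κ l ∧ n (κ l) ≤ l := fun k => by
    filter_upwards [eventually_ge_atTop k, eventually_ge_atTop (n k)] with l b1 b2
    exact ⟨Nat.le_findGreatest b1 b2, Nat.findGreatest_spec (P := fun k => n k ≤ l) b1 b2⟩
  refine ⟨fun l => r (κ l) l, ⟨fun l => (c _ (r1 _)).1 l, fun m => (hκ m).mono fun l b =>
    Nor.le b.1 (hn _ l b.2).1⟩, fun p hp => ?_⟩
  obtain ⟨i, rfl⟩ := hf.le (mem_insert_of_mem _ hp)
  exact (hκ (i+1)).mono fun l b => (hn _ l b.2).2 i b.1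

theorem mv (a : ℕ) (C : Set V) (h : N (a + 3) C) (e : ℕ → ℕ) (L : Set ℕ) : ∃ v ∈ C, ∃ v' ∈ C,
    ∃ D ⊆ C, N a D ∧ (∀ c, (c, e c) ∉ v) ∧ R L v v' ∧ ∀ w ∈ D, w ⊆ v' := by
  obtain ⟨u, -, h⟩ := h
  obtain ⟨v, v1, h⟩ := h {c | (c, e c) ∉ u}
  obtain ⟨v', v2, h⟩ := h L
  refine ⟨v, v1.1, v', v2.1.1, _, fun w hw => hw.1.1.1, h univ, fun c hc => ?_, v2.2,
    fun w hw x hx => (hw.2 x.1 x.2 hx).2 trivial⟩
  have := v1.2 c _ hc
  simp at this

theorem move {p : ℕ → Set V} (hp : S.Cond p) (f : ℕ → ℕ × ℕ) : ∃ y ∈ S.K, ∃ y' ∈ S.K, ∃ q,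
    S.Cond q ∧ (∀ᶠ l in atTop, q l ⊆ p l ∧ y l ∈ p l ∧ y' l ∈ p l) ∧
    (∀ c l, (c, (f c).2) ∉ y l) ∧ (∀ l, R {c | (f c).1 ≤ l} (y l) (y' l)) ∧
    ∀ l, ∀ w ∈ q l, w ⊆ y' l := by
  classical
  let p' : ℕ → Set V := fun l => if S.Nor l 1 (p l) then p l else S.C l
  have h0 : ∀ᶠ l in atTop, p' l = p l := (hp.2 1).mono fun l hl => if_pos hl
  have h1 : ∀ l, p' l ⊆ S.C l ∧ S.Nor l (0+1) (p' l) := fun l => by
    simp only [p']
    split_ifs with h
    exacts [⟨hp.1 l, h⟩, ⟨subset_rfl, Nor.le (b := l + 1) (by omega) (S.nor l)⟩]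
  let ν : ℕ → ℕ := fun l => Nat.findGreatest (fun a => S.Nor l (a+1) (p' l)) l
  have h2 : ∀ l, S.Nor l (ν l + 1) (p' l) := fun l =>
    Nat.findGreatest_spec (P := fun a => S.Nor l (a+1) (p' l)) (Nat.zero_le l) (h1 l).2
  choose y y1 y' y2 q q1 q2 q3 q4 q5 using fun l => mv (2 ^ (ν l * (S.M l * S.M l + 2))) (p' l)
    (N.le (by
      have : 0 < 2 ^ (ν l * (S.M l * S.M l + 2)) := by positivity
      have : 0 < 2 ^ (S.M l * S.M l) := by positivity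
      rw [add_mul, one_mul, pow_add, pow_add]
      nlinarith) (h2 l)) (fun c => (f c).2) {c | (f c).1 ≤ l}
  refine ⟨y, fun l => (h1 l).1 (y1 l), y', fun l => (h1 l).1 (y2 l), q,
    ⟨fun l => (q1 l).trans (h1 l).1, fun m => ?_⟩, h0.mono fun l hl => hl ▸ ⟨q1 l, y1 l, y2 l⟩,
    fun c l => q3 l c, q4, q5⟩
  filter_upwards [h0, hp.2 (m+1), eventually_ge_atTop m] with l b1 b2 b3
  exact Nor.le (b := ν l) (Nat.le_findGreatest b3 (b1 ▸ b2)) (q2 l)

variable (S) in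
def St' (p : ℕ → Set V) : Set (ℕ → V) := {y ∈ S.K | ∀ᶠ l in atTop, y l ∈ p l}

theorem St'.meas (p : ℕ → Set V) : MeasurableSet (S.St' p) := by
  simp only [St', K, mem_setOf_eq, setOf_and, setOf_forall, eventually_atTop, setOf_exists]
  have : ∀ (l : ℕ) (A : Set V), MeasurableSet {y : ℕ → V | y l ∈ A} := fun l A =>
    measurable_pi_apply l (isOpen_discrete A).measurableSet
  exact (MeasurableSet.iInter fun l => this l _).inter (MeasurableSet.iUnion fun n =>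
    MeasurableSet.iInter fun l => MeasurableSet.iInter fun _ => this l _)

def Bad (B : ℕ → ℕ → Set (ℕ → V)) (X : Set (ℕ → V)) : Prop :=
  ∃ n, ∃ x ∈ X, ∃ y ∈ X, {k | x ∈ B n k}.Finite ∨
    ({k | x ∈ B n k ∧ y ∉ B n k}.Infinite ∧ {k | y ∈ B n k ∧ x ∉ B n k}.Infinite)

theorem stA {p : ℕ → Set V} (hp : S.Cond p) {X : Set (ℕ → V)} (hX : X.Countable)
    {B : ℕ → ℕ → Set (ℕ → V)} (hB : ∀ n k, MeasurableSet (B n k)) :
    ∃ q, S.Cond q ∧ (∀ l, q l ⊆ p l) ∧ ∃ Z ⊆ S.St' q, Z.Countable ∧ (Bad B (X ∪ Z) ∨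
      ∃ κ : ℕ → ℕ, ∀ x ∈ X ∪ S.St' q, ∀ᶠ n in atTop, x ∈ B n (κ n)) := by
  by_cases h : Bad B (X ∪ S.St' p)
  · obtain ⟨n, x, hx, y, hy, h⟩ := h
    exact ⟨p, hp, fun _ => subset_rfl, {x, y} ∩ S.St' p, inter_subset_right,
      (toFinite _).countable.mono inter_subset_left, Or.inl ⟨n, x,
        hx.imp id fun k => ⟨Or.inl rfl, k⟩, y, hy.imp id fun k => ⟨Or.inr rfl, k⟩, h⟩⟩
  simp only [Bad, not_exists, not_and, not_or] at h
  choose b hb using fun n => chain (hX.measurableSet.union (St'.meas (S := S) p)) (hB n)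
    (fun x hx => (h n x hx x hx).1) fun x hx y hy => by
      by_contra k
      rw [not_or] at k
      exact (h n x hx y hy).2 k.1 k.2
  obtain ⟨q, q1, q2, g, hg⟩ := bound (A := fun n m => ⋂ i ≥ m, B n (b n i))
    (fun n m => MeasurableSet.iInter fun i => MeasurableSet.iInter fun _ => hB _ _)
    (fun n a c hac => biInter_subset_biInter_left fun i hi => hac.trans hi) hp
    fun n y hy hl => by simpa only [mem_iInter₂, eventually_atTop] using hb n y (Or.inr ⟨hy, hl⟩)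
  obtain ⟨e, he⟩ := (hX.insert (fun _ => ∅)).exists_eq_range (insert_nonempty _ _)
  have : ∀ n j, ∃ m, e j ∈ X → ∀ i ≥ m, e j ∈ B n (b n i) := fun n j => by
    by_cases k : e j ∈ X
    · exact (eventually_atTop.1 (hb n _ (Or.inl k))).imp fun m hm _ => hm
    · exact ⟨0, fun l => absurd l k⟩
  choose m hm using this
  refine ⟨q, q1, q2, ∅, empty_subset _, countable_empty, Or.inr
    ⟨fun n => b n (g n + (Finset.range n).sup (m n)), fun x hx => ?_⟩⟩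
  rcases hx with hx | hx
  · obtain ⟨j, rfl⟩ := he.le (mem_insert_of_mem _ hx)
    filter_upwards [eventually_gt_atTop j] with n hn
    exact hm n j hx _ ((Finset.le_sup (f := m n) (Finset.mem_range.2 hn)).trans
      (Nat.le_add_left _ _))
  · exact (hg x hx.1 hx.2).mono fun n hn => mem_iInter₂.1 hn _ (Nat.le_add_right _ _)

end Setup

end Pool.Agent.H.MP_d80832_gt
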