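import Mathlib
import Pool.Agent.H.MP_d80832_gt.C

set_option autoImplicit false

namespace Pool.Agent.H.MP_d80832_gt

open Set Filter Function Cardinal
open Pool.Agent.H.MP_3bc7a7_gt.A (J cI)

def Sub (a b : ℕ → V) : Prop := ∀ c, ∀ᶠ l in atTop, ∀ j, (c, j) ∈ a l → (c, j) ∈ b l

namespace Setup

variable (S : Setup)

def Md (x : ℕ → V) : Set (ℕ → V) := {w ∈ S.K | ∀ᶠ l in atTop, w l = x l}

theorem Md.cnt (x : ℕ → V) : (S.Md x).Countable := by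
  refine (countable_iUnion fun n : ℕ => countable_range fun s : Fin n → V =>
    fun l => if h : l < n then s ⟨l, h⟩ else x l).mono fun w hw => ?_
  obtain ⟨n, hn⟩ := eventually_atTop.1 hw.2
  refine mem_iUnion.2 ⟨n, fun i => w i, funext fun l => ?_⟩
  dsimp only
  split_ifs with h
  exacts [rfl, (hn l (not_lt.1 h)).symm]

abbrev Dt : Type := (ℕ → Set V) × Set (ℕ → V) × (ℕ → V) × (ℕ → V)

def pts (d : Dt) : Set (ℕ → V) := d.2.1 ∪ (S.Md d.2.2.1 ∪ S.Md d.2.2.2)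

def Good (P : Set Dt) (B : ℕ → ℕ → Set (ℕ → V)) (f : ℕ → ℕ × ℕ) (d : Dt) : Prop :=
  S.Cond d.1 ∧ (S.pts d).Countable ∧ (∀ e ∈ P, (∀ᶠ l in atTop, d.1 l ⊆ e.1 l) ∧
    S.pts d ⊆ S.St' e.1) ∧ (Bad B ((⋃ e ∈ P, S.pts e) ∪ S.pts d) ∨ ∃ κ : ℕ → ℕ,
      ∀ x ∈ ((⋃ e ∈ P, S.pts e) ∪ S.pts d) ∪ S.St' d.1, ∀ᶠ n in atTop, x ∈ B n (κ n)) ∧
    d.2.2.1 ∈ S.K ∧ d.2.2.2 ∈ S.K ∧ (∀ c l, (c, (f c).2) ∉ d.2.2.1 l) ∧
    (∀ l, R {c | (f c).1 ≤ l} (d.2.2.1 l) (d.2.2.2 l)) ∧ ∀ l, ∀ w ∈ d.1 l, w ⊆ d.2.2.2 l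

variable {S}

theorem St'.mono {p q : ℕ → Set V} (h : ∀ᶠ l in atTop, p l ⊆ q l) : S.St' p ⊆ S.St' q :=
  fun _ hy => ⟨hy.1, (h.and hy.2).mono fun _ k => k.1 k.2⟩

theorem Md.sub {p : ℕ → Set V} {y : ℕ → V} (h : ∀ᶠ l in atTop, y l ∈ p l) : S.Md y ⊆ S.St' p :=
  fun _ hy => ⟨hy.1, (h.and hy.2).mono fun _ k => k.2 ▸ k.1⟩

theorem stage (P : Set Dt) {B : ℕ → ℕ → Set (ℕ → V)} (hB : ∀ n k, MeasurableSet (B n k))
    (f : ℕ → ℕ × ℕ) : ∃ d, P.Countable → (∀ e ∈ P, S.Cond e.1 ∧ (S.pts e).Countable) →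
    (∀ e ∈ P, ∀ e' ∈ P, (∀ᶠ l in atTop, e.1 l ⊆ e'.1 l) ∨ ∀ᶠ l in atTop, e'.1 l ⊆ e.1 l) →
    S.Good P B f d := by
  by_cases k : P.Countable ∧ (∀ e ∈ P, S.Cond e.1 ∧ (S.pts e).Countable) ∧
    (∀ e ∈ P, ∀ e' ∈ P, (∀ᶠ l in atTop, e.1 l ⊆ e'.1 l) ∨ ∀ᶠ l in atTop, e'.1 l ⊆ e.1 l)
  swap
  · exact ⟨default, fun a b c => (k ⟨a, b, c⟩).elim⟩
  obtain ⟨k1, k2, k3⟩ := k
  obtain ⟨p, p1, p2⟩ := lower (S := S) (k1.image Prod.fst)
    (by rintro _ ⟨e, he, rfl⟩; exact (k2 e he).1)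
    (by rintro _ ⟨e, he, rfl⟩ _ ⟨e', he', rfl⟩; exact k3 e he e' he')
  obtain ⟨q, q1, q2, Z, z1, z2, z3⟩ := stA p1 (k1.biUnion fun e he => (k2 e he).2) hB
  obtain ⟨y, y1, y', y2, r, r1, r2, r3⟩ := move q1 f
  have a : S.pts (r, Z, y, y') ⊆ S.St' q := union_subset z1 (union_subset
    (Md.sub (r2.mono fun _ h => h.2.1)) (Md.sub (r2.mono fun _ h => h.2.2)))
  refine ⟨(r, Z, y, y'), fun _ _ _ => ⟨r1, z2.union ((Md.cnt _ _).union (Md.cnt _ _)),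
    fun e he => ?_, ?_, y1, y2, r3⟩⟩
  · have := (p2 _ ⟨e, he, rfl⟩).mono fun l h => (q2 l).trans h
    exact ⟨(this.and r2).mono fun _ h => h.2.1.trans h.1, a.trans (St'.mono this)⟩
  · refine z3.imp ?_ fun ⟨κ, h⟩ => ⟨κ, fun x hx => h x ?_⟩
    · rintro ⟨n, x, hx, w, hw, h⟩
      exact ⟨n, x, hx.imp id Or.inl, w, hw.imp id Or.inl, h⟩
    · rcases hx with (hx | hx) | hx
      exacts [Or.inl hx, Or.inr (a hx), Or.inr (St'.mono (r2.mono fun _ h => h.1) hx)]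

theorem build (h : continuum.{0} = aleph 1) : ∃ X Y : Set (ℕ → V), Y ⊆ X ∧ Y ⊆ S.K ∧
    (∀ B : ℕ → ℕ → Set (ℕ → V), (∀ n k, MeasurableSet (B n k)) →
      Bad B X ∨ ∃ κ : ℕ → ℕ, ∀ x ∈ X, ∀ᶠ n in atTop, x ∈ B n (κ n)) ∧
    (∀ y ∈ Y, S.Md y ⊆ Y) ∧ (∀ a ∈ Y, ∀ b ∈ Y, Sub a b ∨ Sub b a) ∧
    ∀ f : ℕ → ℕ × ℕ, ∃ y ∈ Y, ∃ y' ∈ Y, (∀ c l, (c, (f c).2) ∉ y l) ∧
      ∀ c l j, l < (f c).1 → (c, j) ∈ y' l → (c, j) ∉ y l := by
  have cb : #{t : Set (ℕ → V) | MeasurableSet t} ≤ 𝔠 := by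
    have := MeasurableSpace.cardinal_measurableSet_le_continuum
      ((MeasurableSpace.countable_countableGeneratingSet (α := ℕ → V)).le_aleph0.trans
        aleph0_le_continuum)
    rwa [MeasurableSpace.generateFrom_countableGeneratingSet] at this
  haveI : Nonempty {t : Set (ℕ → V) | MeasurableSet t} := ⟨⟨∅, (MeasurableSet.empty : MeasurableSet (∅ : Set (ℕ → V)))⟩⟩
  obtain ⟨en, hen⟩ : ∃ en : J → (ℕ → ℕ → {t : Set (ℕ → V) | MeasurableSet t}) × (ℕ → ℕ × ℕ),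
      Surjective en := by
    have : #((ℕ → ℕ → {t : Set (ℕ → V) | MeasurableSet t}) × (ℕ → ℕ × ℕ)) ≤ #J := by
      have e : #J = 𝔠 := by simp [h]
      rw [e, mk_prod, lift_id, lift_id]
      refine (mul_le_mul' (b := 𝔠) (d := 𝔠) ?_ (by simp)).trans (by simp)
      simp only [← power_def, mk_nat]
      refine (power_le_power_right (power_le_power_right cb)).trans (by simp)
    obtain ⟨i⟩ := this
    exact ⟨invFun i, invFun_surjective i.injective⟩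
  choose st hst using fun (a : J) (P : Set Dt) => stage (S := S) P
    (B := fun n k => ((en a).1 n k).1) (fun n k => ((en a).1 n k).2) (en a).2
  let d : J → Dt := wellFounded_lt.fix fun a d => st a (range fun b : Iio a => d b b.2)
  have hd : ∀ a, d a = st a (d '' Iio a) := fun a => by
    rw [image_eq_range]; exact wellFounded_lt.fix_eq _ a
  have G : ∀ a, S.Good (d '' Iio a) (fun n k => ((en a).1 n k).1) (en a).2 (d a) := by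
    intro a
    induction a using WellFoundedLT.induction with | ind a ih => ?_
    rw [hd a]
    refine hst a _ (((cI a).mono Iio_subset_Iic_self).image _) ?_ ?_
    · rintro _ ⟨b, hb, rfl⟩
      exact ⟨(ih b hb).1, (ih b hb).2.1⟩
    · rintro _ ⟨b, hb, rfl⟩ _ ⟨c, hc, rfl⟩
      rcases lt_trichotomy b c with l | rfl | l
      · exact Or.inr ((ih c hc).2.2.1 _ ⟨b, l, rfl⟩).1
      · simp
      · exact Or.inl ((ih b hb).2.2.1 _ ⟨c, l, rfl⟩).1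
  have s1 : ∀ a, ∀ x ∈ S.Md (d a).2.2.2, ∀ w ∈ S.Md (d a).2.2.1, Sub x w := by
    intro a x hx w hw c
    filter_upwards [hx.2, hw.2, eventually_ge_atTop ((en a).2 c).1] with l b1 b2 b3 j hj
    rw [b2]
    exact ((G a).2.2.2.2.2.2.2.1 l c j (b1 ▸ hj)).2 b3
  have s0 : ∀ z, ∀ x ∈ S.Md z, ∀ w ∈ S.Md z, Sub x w := by
    intro z x hx w hw c
    filter_upwards [hx.2, hw.2] with l b1 b2 j hj
    rwa [b2, ← b1]
  have s2 : ∀ a b, a < b → ∀ x ∈ S.pts (d b), ∀ w ∈ S.Md (d a).2.2.1 ∪ S.Md (d a).2.2.2,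
      Sub x w := by
    intro a b hab x hx w hw c
    have h1 := (((G b).2.2.1 _ ⟨a, hab, rfl⟩).2 hx).2
    have h2 : Sub (d a).2.2.2 w := by
      have : (d a).2.2.2 ∈ S.Md (d a).2.2.2 := ⟨(G a).2.2.2.2.2.1, by simp⟩
      exact hw.elim (s1 a _ this w) (s0 _ _ this w)
    filter_upwards [h1, h2 c] with l b1 b2 j hj
    exact b2 j ((G a).2.2.2.2.2.2.2.2 l _ b1 hj)
  refine ⟨⋃ a, S.pts (d a), ⋃ a, S.Md (d a).2.2.1 ∪ S.Md (d a).2.2.2,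
    iUnion_mono fun a => subset_union_right, iUnion_subset fun a x hx => hx.elim (·.1) (·.1),
    fun B hB => ?_, fun y hy w hw => ?_, fun x hx w hw => ?_, fun f => ?_⟩
  · obtain ⟨a, ha⟩ := hen (fun n k => ⟨B n k, hB n k⟩, fun _ => 0)
    have := (G a).2.2.2.1
    simp only [ha] at this
    have u : ((⋃ e ∈ d '' Iio a, S.pts e) ∪ S.pts (d a)) ⊆ ⋃ a, S.pts (d a) :=
      union_subset (iUnion₂_subset fun _ ⟨b, _, e⟩ => e ▸ subset_iUnion (fun a => S.pts (d a)) b)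
        (subset_iUnion (fun a => S.pts (d a)) a)
    refine this.imp (fun ⟨n, x, hx, w, hw, h⟩ => ⟨n, x, u hx, w, u hw, h⟩)
      fun ⟨κ, h⟩ => ⟨κ, fun x hx => h x ?_⟩
    obtain ⟨b, hb⟩ := mem_iUnion.1 hx
    rcases lt_trichotomy b a with l | rfl | l
    · exact Or.inl (Or.inl (mem_biUnion ⟨b, l, rfl⟩ hb))
    · exact Or.inl (Or.inr hb)
    · exact Or.inr (((G b).2.2.1 _ ⟨a, l, rfl⟩).2 hb)
  · obtain ⟨a, ha⟩ := mem_iUnion.1 hy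
    exact mem_iUnion.2 ⟨a, ha.imp (fun k => ⟨hw.1, (hw.2.and k.2).mono fun _ e => e.1.trans e.2⟩)
      fun k => ⟨hw.1, (hw.2.and k.2).mono fun _ e => e.1.trans e.2⟩⟩
  · obtain ⟨a, ha⟩ := mem_iUnion.1 hx
    obtain ⟨b, hb⟩ := mem_iUnion.1 hw
    rcases lt_trichotomy a b with l | rfl | l
    · exact Or.inr (s2 a b l w (Or.inr hb) x ha)
    · rcases ha with ha | ha <;> rcases hb with hb | hb
      exacts [Or.inl (s0 _ _ ha _ hb), Or.inr (s1 _ _ hb _ ha), Or.inl (s1 _ _ ha _ hb),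
        Or.inl (s0 _ _ ha _ hb)]
    · exact Or.inl (s2 b a l x (Or.inr ha) w hb)
  · obtain ⟨a, ha⟩ := hen (fun _ _ => Classical.arbitrary _, f)
    obtain ⟨-, -, -, -, g1, g2, g3, g4, -⟩ := G a
    simp only [ha] at g3 g4
    exact ⟨_, mem_iUnion.2 ⟨a, Or.inl ⟨g1, by simp⟩⟩, _, mem_iUnion.2 ⟨a, Or.inr ⟨g2, by simp⟩⟩,
      g3, fun c l j hl hj k => absurd ((g4 l c j hj).1 k) (not_le.2 hl)⟩

end Setup

end Pool.Agent.H.MP_d80832_gt
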